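import Pool.Agent.H23.BG.TargetsL
import Pool.Agent.H26.THC.SP

/-!
# (L_C4) the complete sums of the coefficients
-/

set_option autoImplicit false

open NumberField NumberField.InfinitePlace NumberField.Units
  NumberField.Units.dirichletUnitTheorem MeasureTheory Set Filter Complex
open scoped nonZeroDivisors ENNReal

namespace Pool.Agent.H28.BG

open Pool.Agent.H25.HK Pool.Agent.H23.LB Pool.Agent.H23.LC Pool.Agent.H29.DW
open Pool.Agent.H28.RC (Rep ft idl)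
open Pool.Agent.H29.TC (dvs cq LC Gn MC T_GX T_DF)
open Pool.Agent.H26.THC (cq_eq gn_unique)
open Pool.Agent.H23.BG

private theorem le_wt {A N n₂ n₃ n₄ x : ℝ} (hA : 0 ≤ A) (hN : 0 ≤ N) (h2 : 0 ≤ n₂) (h3 : 0 ≤ n₃)
    (h4 : 0 ≤ n₄) (h : Bd4 A N n₂ n₃ n₄ x) : x ≤ wt A N n₂ n₃ n₄ := by
  obtain ⟨h5, h6, h7, h8, h9⟩ := h
  have key6 : ∀ T : ℝ, 0 ≤ T → x ^ 6 ≤ A ^ 6 * N ^ 3 * T ^ 4 →
      x ≤ A * N ^ (1 / 2 : ℝ) * T ^ (2 / 3 : ℝ) := by
    intro T hT hx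
    refine le_of_pow_le_pow_left₀ (n := 6) (by norm_num) (by positivity) (hx.trans_eq ?_)
    have e1 : (N ^ (1 / 2 : ℝ)) ^ 6 = N ^ 3 := by
      rw [← Real.rpow_natCast, ← Real.rpow_mul hN, ← Real.rpow_natCast]
      norm_num
    have e2 : (T ^ (2 / 3 : ℝ)) ^ 6 = T ^ 4 := by
      rw [← Real.rpow_natCast, ← Real.rpow_mul hT, ← Real.rpow_natCast]
      norm_num
    rw [mul_pow, mul_pow, e1, e2]
  have key4 : ∀ S : ℝ, 0 ≤ S → x ^ 4 ≤ A ^ 4 * N ^ 3 * S ^ 2 →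
      x ≤ A * N ^ (3 / 4 : ℝ) * S ^ (1 / 2 : ℝ) := by
    intro S hS hx
    refine le_of_pow_le_pow_left₀ (n := 4) (by norm_num) (by positivity) (hx.trans_eq ?_)
    have e1 : (N ^ (3 / 4 : ℝ)) ^ 4 = N ^ 3 := by
      rw [← Real.rpow_natCast, ← Real.rpow_mul hN, ← Real.rpow_natCast]
      norm_num
    have e2 : (S ^ (1 / 2 : ℝ)) ^ 4 = S ^ 2 := by
      rw [← Real.rpow_natCast, ← Real.rpow_mul hS, ← Real.rpow_natCast]
      norm_num
    rw [mul_pow, mul_pow, e1, e2]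
  unfold wt
  exact le_min h5 (le_min (key6 _ (by positivity) h6) (le_min (key4 _ (by positivity) h7)
    (le_min (key4 _ (by positivity) h8) (key4 _ (by positivity) h9))))

theorem pf_L_C4 (hGX : T_GX) (hDF : T_DF) (hSG : L_SG) (hGL : L_GL) : L_C4 := by
  intro n K _ _ hn f hf hft χ hP M X hM hX b hb
  obtain ⟨x₀, hGn⟩ := hGX K f M hf hM
  obtain ⟨η, hLC, hη⟩ := hSG K f hf hft χ hP
  obtain ⟨c₀, hc₀, hc⟩ := hη M x₀ hM hGn
  choose a ha0 ha using fun i => hGn.gen (b i) (hb i)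
  classical
  haveI : Finite (𝓞 K ⧸ f) := Ideal.finiteQuotientOfFreeOfNeBot f hf
  haveI : Fintype (𝓞 K ⧸ f) := Fintype.ofFinite _
  let S : Submodule (𝓞 K) K := ((f : FI K) * M : FI K)
  have hS : ∀ x : K, x ∈ S ↔ x ∈ (f : FI K) * M := fun x => Iff.rfl
  have hgen : ∀ r ∈ X, ∃ c : 𝓞 K, r - (c : K) * x₀ ∈ (f : FI K) * M := fun r hr => by
    obtain ⟨c, -, hc'⟩ := hGn.gen r (hX.1 r hr)
    exact ⟨c, hc'⟩
  let ρ : K → 𝓞 K ⧸ f := fun r =>
    if h : ∃ c : 𝓞 K, r - (c : K) * x₀ ∈ (f : FI K) * M then Ideal.Quotient.mk f h.choose else 0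
  have hρ : ∀ (r : K) (c : 𝓞 K), r - (c : K) * x₀ ∈ (f : FI K) * M →
      ρ r = Ideal.Quotient.mk f c := by
    intro r c h
    have hex : ∃ c : 𝓞 K, r - (c : K) * x₀ ∈ (f : FI K) * M := ⟨c, h⟩
    change (if h : ∃ c : 𝓞 K, r - (c : K) * x₀ ∈ (f : FI K) * M then
      Ideal.Quotient.mk f h.choose else 0) = _
    rw [dif_pos hex, Ideal.Quotient.eq]
    exact gn_unique hGn hex.choose_spec h
  let G : 𝓞 K ⧸ f → ℂ := fun y => η (y + Ideal.Quotient.mk f (a 0)) *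
    η (y + Ideal.Quotient.mk f (a 1)) * (starRingEnd ℂ) (η (y + Ideal.Quotient.mk f (a 2))) *
    (starRingEnd ℂ) (η (y + Ideal.Quotient.mk f (a 3)))
  have hval : ∀ r ∈ X, ∀ i, cg χ M (r + b i) = c₀ * η (ρ r + Ideal.Quotient.mk f (a i)) := by
    intro r hr i
    obtain ⟨c, hc'⟩ := hgen r hr
    have hm : r + b i ∈ M := (M : Submodule (𝓞 K) K).add_mem (hX.1 r hr) (hb i)
    rw [hc _ hm, hρ r c hc', ← map_add]
    congr 1
    refine cq_eq f η hGn (c + a i) (r + b i) ?_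
    have h1 : ((c + a i : 𝓞 K) : K) = (c : K) + (a i : K) := map_add (algebraMap (𝓞 K) K) c (a i)
    have h2 : r + b i - ((c + a i : 𝓞 K) : K) * x₀ =
        (r - (c : K) * x₀) + (b i - (a i : K) * x₀) := by rw [h1]; ring
    rw [h2]
    exact S.add_mem hc' (ha i)
  have hsum : c4M K X (cg χ M) b = (c₀ * c₀ * (starRingEnd ℂ) c₀ * (starRingEnd ℂ) c₀) *
      c4 η (fun i => Ideal.Quotient.mk f (a i)) := by
    unfold c4M c4
    have h1 : ∑ r ∈ X, cg χ M (r + b 0) * cg χ M (r + b 1) *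
        (starRingEnd ℂ) (cg χ M (r + b 2)) * (starRingEnd ℂ) (cg χ M (r + b 3)) =
        ∑ r ∈ X, (c₀ * c₀ * (starRingEnd ℂ) c₀ * (starRingEnd ℂ) c₀) * G (ρ r) := by
      refine Finset.sum_congr rfl fun r hr => ?_
      rw [hval r hr 0, hval r hr 1, hval r hr 2, hval r hr 3, map_mul, map_mul]
      change _ = _ * (η (ρ r + Ideal.Quotient.mk f (a 0)) *
        η (ρ r + Ideal.Quotient.mk f (a 1)) *
        (starRingEnd ℂ) (η (ρ r + Ideal.Quotient.mk f (a 2))) *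
        (starRingEnd ℂ) (η (ρ r + Ideal.Quotient.mk f (a 3))))
      ring
    rw [h1, ← Finset.mul_sum]
    congr 1
    refine Finset.sum_bij (fun r _ => ρ r) (fun r _ => Finset.mem_univ _) ?_ ?_ ?_
    · intro r hr r' hr' h
      obtain ⟨c, hc'⟩ := hgen r hr
      obtain ⟨c', hc''⟩ := hgen r' hr'
      rw [hρ r c hc', hρ r' c' hc'', Ideal.Quotient.eq] at h
      have h2 : ((c - c' : 𝓞 K) : K) * x₀ ∈ (f : FI K) * M := (hGn.iff (c - c') f le_rfl).mpr h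
      have h3 : ((c - c' : 𝓞 K) : K) = (c : K) - (c' : K) := map_sub (algebraMap (𝓞 K) K) c c'
      have h4 : r - r' ∈ (f : FI K) * M := by
        have h5 : r - r' = (r - (c : K) * x₀) - (r' - (c' : K) * x₀) +
            ((c - c' : 𝓞 K) : K) * x₀ := by rw [h3]; ring
        rw [h5]
        exact S.add_mem (S.sub_mem hc' hc'') h2
      obtain ⟨s, -, hs⟩ := hX.2 r (hX.1 r hr)
      have h6 := hs r ⟨hr, by rw [sub_self]; exact S.zero_mem⟩
      have h7 := hs r' ⟨hr', h4⟩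
      rw [h6, h7]
    · intro y _
      obtain ⟨c, rfl⟩ := Ideal.Quotient.mk_surjective y
      have hcx : (c : K) * x₀ ∈ M := by
        have h3 : (c : K) * x₀ = c • x₀ := by rw [Algebra.smul_def]
        rw [h3]
        exact (M : Submodule (𝓞 K) K).smul_mem c hGn.mem
      obtain ⟨r, ⟨hr, hr'⟩, -⟩ := hX.2 _ hcx
      refine ⟨r, hr, hρ r c ?_⟩
      have h3 : r - (c : K) * x₀ = -((c : K) * x₀ - r) := by ring
      rw [h3]
      exact S.neg_mem hr'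
    · intro r _
      rfl
  refine ⟨fun i j => gd f a i j, fun i j => ⟨(hDF K f hf _).mpr le_sup_left, ?_⟩, ?_⟩
  · have hle : f ≤ gd f a i j := le_sup_left
    have h1 : ((a i - a j : 𝓞 K) : K) * x₀ ∈ ((gd f a i j : Ideal (𝓞 K)) : FI K) * M :=
      (hGn.iff (a i - a j) _ hle).mpr
        ((le_sup_right : Ideal.span {a i - a j} ≤ _) (Ideal.mem_span_singleton_self _))
    have h2 : ((a i - a j : 𝓞 K) : K) = (a i : K) - (a j : K) :=
      map_sub (algebraMap (𝓞 K) K) (a i) (a j)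
    have h3 : (f : FI K) * M ≤ ((gd f a i j : Ideal (𝓞 K)) : FI K) * M :=
      mul_le_mul_left ((FractionalIdeal.coeIdeal_le_coeIdeal K).mpr hle) M
    have h4 : b i - b j = (b i - (a i : K) * x₀) - (b j - (a j : K) * x₀) +
        ((a i - a j : 𝓞 K) : K) * x₀ := by rw [h2]; ring
    rw [h4]
    let S' : Submodule (𝓞 K) K := (((gd f a i j : Ideal (𝓞 K)) : FI K) * M : FI K)
    exact S'.add_mem (S'.sub_mem (h3 (ha i)) (h3 (ha j))) h1
  · have h1 := hGL n K hn f hf η hLC a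
    have h2 : ‖c4M K X (cg χ M) b‖ ≤ ‖c4 η (fun i => Ideal.Quotient.mk f (a i))‖ := by
      rw [hsum, norm_mul]
      refine mul_le_of_le_one_left (norm_nonneg _) ?_
      rw [norm_mul, norm_mul, norm_mul, RCLike.norm_conj]
      have h3 := norm_nonneg c₀
      exact mul_le_one₀ (mul_le_one₀ (mul_le_one₀ hc₀ h3 hc₀) h3 hc₀) h3 hc₀
    refine h2.trans (le_wt ?_ ?_ ?_ ?_ ?_ h1)
    · positivity
    all_goals unfold Nf; positivity

end Pool.Agent.H28.BG
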