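import Pool.Agent.H23.BG.TargetsL
import Pool.Agent.H51.DW.SG

/-!
# (L_SG) the local structure of the coefficients of a primitive Hecke character
-/

set_option autoImplicit false

open NumberField NumberField.InfinitePlace NumberField.Units
  NumberField.Units.dirichletUnitTheorem MeasureTheory Set Filter Complex
open scoped nonZeroDivisors ENNReal

namespace Pool.Agent.H28.BG

open Pool.Agent.H25.HK Pool.Agent.H23.LB Pool.Agent.H23.LC Pool.Agent.H29.DW
open Pool.Agent.H28.RC (Rep ft idl T_ID)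
open Pool.Agent.H29.TC (dvs cq LC Gn MC)
open Pool.Agent.H26.THC (isUnit_of_sup sup_of_isUnit ph_conj0 cq_eq)
open Pool.Agent.H51.DW (E0 E1 E1_eq E1_zero ag_conj E1_mul E1_one E1_of_not E1_norm_le E1_congr)
open Pool.Agent.H23.BG

theorem pf_L_SG (hAG : U_AG) : L_SG := by
  have hCG : U_CG := Pool.Agent.H60.GLB.pf_CG hAG
  have hID : T_ID := Pool.Agent.H92.RC.pf_ID
  intro K _ _ f hf hft χ hP
  let η : 𝓞 K ⧸ f → ℂ := fun q => E1 χ q.out
  have hη : ∀ a : 𝓞 K, η (Ideal.Quotient.mk f a) = E1 χ a := by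
    intro a
    refine E1_congr hAG χ hft ?_
    rw [← Ideal.Quotient.eq]
    exact Quotient.out_eq _
  have hmul : ∀ x y, η (x * y) = η x * η y := by
    intro x y
    obtain ⟨a, rfl⟩ := Ideal.Quotient.mk_surjective x
    obtain ⟨b, rfl⟩ := Ideal.Quotient.mk_surjective y
    rw [← map_mul, hη, hη, hη, ← E1_mul hAG]
  have hone : η 1 = 1 := by
    rw [← map_one (Ideal.Quotient.mk f), hη, E1_one hAG]
  refine ⟨η, ⟨⟨hone, hmul, ?_, ?_⟩, ?_⟩, ?_⟩
  · -- units
    intro x hx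
    obtain ⟨y, hy⟩ := hx.exists_left_inv
    have h3 : η y * η x = 1 := by rw [← hmul, hy, hone]
    have h4 : ‖η y‖ ≤ 1 := E1_norm_le hAG χ _
    have h5 : ‖η x‖ ≤ 1 := E1_norm_le hAG χ _
    have h6 : ‖η y‖ * ‖η x‖ = 1 := by rw [← norm_mul, h3, norm_one]
    have h7 := norm_nonneg (η x)
    refine le_antisymm h5 ?_
    rw [← h6]
    exact mul_le_of_le_one_left h7 h4
  · -- non units
    intro x hx
    obtain ⟨a, rfl⟩ := Ideal.Quotient.mk_surjective x
    rw [hη]
    exact E1_of_not χ fun h => hx (isUnit_of_sup f _ h)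
  · -- primitive
    intro w hw
    obtain ⟨w0, rfl⟩ := Ideal.Quotient.mk_surjective w
    have hw0 : w0 ∉ f := fun h => hw (Ideal.Quotient.eq_zero_iff_mem.mpr h)
    obtain ⟨J, hJ⟩ := Ideal.dvd_iff_le.mpr (le_sup_right : f ≤ Ideal.span {w0} ⊔ f)
    have hJt : J ≠ ⊤ := by
      rintro rfl
      rw [Ideal.mul_top] at hJ
      apply hw0
      rw [hJ]
      exact (le_sup_left : Ideal.span {w0} ≤ _) (Ideal.mem_span_singleton_self w0)
    obtain ⟨P, hPm, hJP⟩ := Ideal.exists_le_maximal J hJt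
    have hPp := hPm.isPrime
    have hfP : f ≤ P := by
      rw [hJ]
      exact Ideal.mul_le_right.trans hJP
    have hP0 : P ≠ ⊥ := fun h => hf (le_bot_iff.mp (h ▸ hfP))
    obtain ⟨J', hJ'⟩ := Ideal.dvd_iff_le.mpr hJP
    obtain ⟨a, ha0, ha1, ha2, ha3⟩ := hP P hPp hfP
    have h3 : Ideal.span {a - 1} * P ≤ f := by
      rw [Ideal.mul_le]
      intro r hr s hs
      obtain ⟨c, rfl⟩ := Ideal.mem_span_singleton'.mp hr
      rw [mul_assoc]
      exact Ideal.mul_mem_left _ _ (ha2 s hs)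
    have h4 : Ideal.span {a - 1} ≤ Ideal.span {w0} ⊔ f := by
      rw [← Ideal.dvd_iff_le] at h3 ⊢
      have h5 : (Ideal.span {w0} ⊔ f) * J' * P ∣ Ideal.span {a - 1} * P := by
        refine dvd_trans ?_ h3
        rw [mul_assoc, mul_comm J' P, ← hJ', ← hJ]
      have h6 := (mul_dvd_mul_iff_right (show P ≠ 0 from hP0)).mp h5
      exact dvd_trans (dvd_mul_right _ _) h6
    have h5 : a - 1 ∈ Ideal.span {w0} ⊔ f := h4 (Ideal.mem_span_singleton_self _)
    obtain ⟨x, hx, s, hs, hxs⟩ := Submodule.mem_sup.mp h5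
    obtain ⟨r, rfl⟩ := Ideal.mem_span_singleton'.mp hx
    have h6 : 1 + Ideal.Quotient.mk f r * Ideal.Quotient.mk f w0 = Ideal.Quotient.mk f a := by
      rw [← map_mul, ← map_one (Ideal.Quotient.mk f), ← map_add, Ideal.Quotient.eq]
      have h7 : 1 + r * w0 - a = -s := by linear_combination hxs
      rw [h7]
      exact neg_mem hs
    refine ⟨Ideal.Quotient.mk f r, ?_, ?_⟩
    · rw [h6]
      exact isUnit_of_sup _ _ ha1
    · rw [h6, hη, E1_eq χ ha0]
      intro h8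
      apply ha3
      unfold Pool.Agent.H51.DW.E0 at h8
      have h9 := ag_conj hAG χ.k (RingOfIntegers.coe_ne_zero_iff.mpr ha0)
      have h10 := ph_conj0 χ.ν (a : K)
      linear_combination (ag χ.k (a : K) * ph χ.ν (a : K)) * h8 -
        (χ.ψ (Ideal.span {a})) * h9 - (ag χ.k (a : K) * (starRingEnd ℂ) (ag χ.k (a : K)) *
        χ.ψ (Ideal.span {a})) * h10
  · -- the coefficients
    intro M x₀ hM hGn
    obtain ⟨-, hc2, -, hc5, -, -, -, -⟩ := hCG K f χ M hf hM
    refine ⟨cg χ M x₀, hc2 x₀ hGn.mem, ?_⟩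
    intro x hx
    obtain ⟨a, ha0, ha⟩ := hGn.gen x hx
    rw [cq_eq f η hGn a x ha, hη]
    have hax : (a : K) * x₀ ∈ M := by
      have h3 : (a : K) * x₀ = a • x₀ := by rw [Algebra.smul_def]
      rw [h3]
      exact (M : Submodule (𝓞 K) K).smul_mem a hGn.mem
    have h3 : x = (a : K) * x₀ + (x - (a : K) * x₀) := by ring
    have h4 : cg χ M x = cg χ M ((a : K) * x₀) := by
      conv_lhs => rw [h3]
      exact hc5 _ hax _ ha
    rw [h4, Pool.Agent.H60.GLB.cg_mul_a hAG hID χ hf hM ha0 hGn.mem]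
    have h5 : (starRingEnd ℂ) (ag χ.k (a : K)) * (starRingEnd ℂ) (ph χ.ν (a : K)) *
        χ.ψ (Ideal.span {a}) = E1 χ a := (E1_eq χ ha0).symm
    rw [h5]
    ring

end Pool.Agent.H28.BG
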