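import Pool.Agent.H23.BG.TargetsP

/-!
# (P_T5) the sum over the quadruples
-/

set_option autoImplicit false

open NumberField NumberField.InfinitePlace NumberField.Units
  NumberField.Units.dirichletUnitTheorem MeasureTheory Set Filter Complex
open scoped nonZeroDivisors ENNReal

namespace Pool.Agent.H28.BG

open Pool.Agent.H25.HK Pool.Agent.H23.LB Pool.Agent.H23.LC Pool.Agent.H29.DW
open Pool.Agent.H28.RC (Rep ft idl)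
open Pool.Agent.H29.TC (dvs cq LC Gn MC T_DF)
open Pool.Agent.H23.BG

section

variable {K : Type} [Field K] [NumberField K]

private theorem mem_inf {I J : Ideal (𝓞 K)} {M : FI K} (hM : M ≠ 0) {x : K}
    (hI : x ∈ (I : FI K) * M) (hJ : x ∈ (J : FI K) * M) :
    x ∈ ((I ⊓ J : Ideal (𝓞 K)) : FI K) * M := by
  have h : ((I : FI K) * M) ⊓ ((J : FI K) * M) ≤ ((I ⊓ J : Ideal (𝓞 K)) : FI K) * M := by
    rw [FractionalIdeal.coeIdeal_inf]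
    have h1 : (((I : FI K) * M) ⊓ ((J : FI K) * M)) * M⁻¹ ≤ (I : FI K) ⊓ (J : FI K) := by
      refine le_inf ?_ ?_
      · calc (((I : FI K) * M) ⊓ ((J : FI K) * M)) * M⁻¹ ≤ ((I : FI K) * M) * M⁻¹ :=
            mul_le_mul_left inf_le_left _
          _ = (I : FI K) := by rw [mul_assoc, mul_inv_cancel₀ hM, mul_one]
      · calc (((I : FI K) * M) ⊓ ((J : FI K) * M)) * M⁻¹ ≤ ((J : FI K) * M) * M⁻¹ :=
            mul_le_mul_left inf_le_right _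
          _ = (J : FI K) := by rw [mul_assoc, mul_inv_cancel₀ hM, mul_one]
    calc ((I : FI K) * M) ⊓ ((J : FI K) * M) =
        (((I : FI K) * M) ⊓ ((J : FI K) * M)) * M⁻¹ * M := by
          rw [mul_assoc, inv_mul_cancel₀ hM, mul_one]
      _ ≤ ((I : FI K) ⊓ (J : FI K)) * M := mul_le_mul_left h1 M
  exact h ⟨hI, hJ⟩

private theorem count {M : FI K} {y : InfinitePlace K → ℝ} (e : Ideal (𝓞 K))
    (hfin' : (Bx K ((e : FI K) * M) (fun v => y v - 2 * Real.log 2)).Finite) (T : Finset K)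
    (hT : ∀ x ∈ T, x ∈ Bx K M y) (hd : ∀ x ∈ T, ∀ x' ∈ T, x - x' ∈ (e : FI K) * M) :
    (T.card : ℝ) ≤ cb K ((e : FI K) * M) (fun v => y v - 2 * Real.log 2) := by
  rcases T.eq_empty_or_nonempty with rfl | ⟨c, hc⟩
  · simp [cb]
  unfold cb
  rw [Nat.cast_le]
  classical
  have hcard : (T.image fun x => x - c).card = T.card :=
    Finset.card_image_of_injective _ (sub_left_injective)
  rw [← hcard, ← Set.ncard_coe_finset]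
  refine Set.ncard_le_ncard ?_ hfin'
  intro z hz
  obtain ⟨x, hx, rfl⟩ := Finset.mem_image.mp (Finset.mem_coe.mp hz)
  refine ⟨hd x hx c hc, fun v => ?_⟩
  have h1 := (hT x hx).2 v
  have h2 := (hT c hc).2 v
  have h3 : Real.exp ((y v - 2 * Real.log 2) / 2) = Real.exp (y v / 2) / 2 := by
    rw [sub_div, Real.exp_sub]
    have : 2 * Real.log 2 / 2 = Real.log 2 := by ring
    rw [this, Real.exp_log (by norm_num)]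
  have h4 : v (x - c) ≤ v x + v c := by
    have := v.1.sub_le_add x c
    exact this
  rw [h3]
  have h5 := Real.exp_pos (y v / 2)
  nlinarith

end

private theorem sum_le_card_mul {ι κ : Type} (Q : Finset ι) (D : Finset κ) (h : ι → κ)
    (φ : κ → ℝ) (hφ : ∀ g ∈ D, 0 ≤ φ g) (hh : ∀ q ∈ Q, h q ∈ D) :
    ∑ q ∈ Q, φ (h q) ≤ (Q.card : ℝ) * ∑ g ∈ D, φ g := by
  rw [← nsmul_eq_mul]
  exact Finset.sum_le_card_nsmul _ _ _ fun q hq => Finset.single_le_sum hφ (hh q hq)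


private theorem sum_pi {α : Type} [DecidableEq α] (S : Finset α) (F : α → α → α → α → ℝ) :
    ∑ b ∈ Fintype.piFinset (fun _ : Fin 4 => S), F (b 0) (b 1) (b 2) (b 3) =
      ∑ b₀ ∈ S, ∑ b₁ ∈ S, ∑ b₂ ∈ S, ∑ b₃ ∈ S, F b₀ b₁ b₂ b₃ := by
  have h : ∑ b ∈ Fintype.piFinset (fun _ : Fin 4 => S), F (b 0) (b 1) (b 2) (b 3) =
      ∑ p ∈ S ×ˢ (S ×ˢ (S ×ˢ S)), F p.1 p.2.1 p.2.2.1 p.2.2.2 := by
    refine Finset.sum_bij' (fun b _ => (b 0, b 1, b 2, b 3))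
      (fun p _ => ![p.1, p.2.1, p.2.2.1, p.2.2.2]) ?_ ?_ ?_ ?_ ?_
    · intro b hb
      have := Fintype.mem_piFinset.mp hb
      simp [this]
    · intro p hp
      simp only [Finset.mem_product] at hp
      rw [Fintype.mem_piFinset]
      intro i
      fin_cases i
      · exact hp.1
      · exact hp.2.1
      · exact hp.2.2.1
      · exact hp.2.2.2
    · intro b hb
      funext i
      fin_cases i <;> rfl
    · intro p hp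
      rfl
    · intro b hb
      rfl
  rw [h, Finset.sum_product]
  refine Finset.sum_congr rfl fun b₀ _ => ?_
  rw [Finset.sum_product]
  refine Finset.sum_congr rfl fun b₁ _ => ?_
  rw [Finset.sum_product]

theorem pf_P_T5 (hDF : T_DF) : P_T5 := by
  intro K _ _ f hf M X g y A hM hA hfin hfin' hb
  classical
  set D := dvs K f with hD
  set y' : InfinitePlace K → ℝ := fun v => y v - 2 * Real.log 2 with hy'
  have hDf : ∀ e, e ∈ D ↔ f ≤ e := hDF K f hf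
  have hDb : ∀ e ∈ D, e ≠ ⊥ := fun e he h => hf (le_bot_iff.mp (h ▸ (hDf e).mp he))
  let S : Finset K := hfin.toFinset
  have hSB : ∀ x, x ∈ S ↔ x ∈ Bx K M y := fun x => hfin.mem_toFinset
  let n : Ideal (𝓞 K) → ℝ := fun e => cb K ((e : FI K) * M) y'
  have hn0 : ∀ e, 0 ≤ n e := fun e => Nat.cast_nonneg _
  let W : Ideal (𝓞 K) → Ideal (𝓞 K) → Ideal (𝓞 K) → ℝ := fun a b c =>
    wt A (Nf K f) (Nf K a) (Nf K b) (Nf K c)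
  have hW0 : ∀ a b c, 0 ≤ W a b c := by
    intro a b c
    change 0 ≤ wt A (Nf K f) (Nf K a) (Nf K b) (Nf K c)
    unfold wt Nf
    positivity
  have hcount : ∀ e ∈ D, ∀ T : Finset K, (∀ x ∈ T, x ∈ S) →
      (∀ x ∈ T, ∀ x' ∈ T, x - x' ∈ (e : FI K) * M) → (T.card : ℝ) ≤ n e := by
    intro e he T hT hd
    refine count e (hfin' _ (mul_ne_zero ?_ hM)) T (fun x hx => (hSB x).mp (hT x hx)) hd
    exact FractionalIdeal.coeIdeal_ne_zero.mpr (hDb e he)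
  have hsub : ∀ (e : Ideal (𝓞 K)) (x x' z : K), x - z ∈ (e : FI K) * M →
      x' - z ∈ (e : FI K) * M → x - x' ∈ (e : FI K) * M := by
    intro e x x' z h1 h2
    have h3 : x - x' = (x - z) - (x' - z) := by ring
    rw [h3]
    exact (((e : FI K) * M : FI K) : Submodule (𝓞 K) K).sub_mem h1 h2
  have hinf : ∀ e ∈ D, ∀ e' ∈ D, e ⊓ e' ∈ D := fun e he e' he' =>
    (hDf _).mpr (le_inf ((hDf e).mp he) ((hDf e').mp he'))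
  -- indicator functions
  let i1 : Ideal (𝓞 K) → K → K → ℝ := fun e x₀ x₁ =>
    if x₁ - x₀ ∈ (e : FI K) * M then 1 else 0
  let i2 : Ideal (𝓞 K) × Ideal (𝓞 K) → K → K → K → ℝ := fun e x₀ x₁ x₂ =>
    if x₂ - x₀ ∈ (e.1 : FI K) * M ∧ x₂ - x₁ ∈ (e.2 : FI K) * M then 1 else 0
  let i3 : Ideal (𝓞 K) × Ideal (𝓞 K) × Ideal (𝓞 K) → K → K → K → K → ℝ :=
    fun e x₀ x₁ x₂ x₃ => if x₃ - x₀ ∈ (e.1 : FI K) * M ∧ x₃ - x₁ ∈ (e.2.1 : FI K) * M ∧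
      x₃ - x₂ ∈ (e.2.2 : FI K) * M then 1 else 0
  have hi1 : ∀ e x₀ x₁, 0 ≤ i1 e x₀ x₁ := fun e x₀ x₁ => by
    change 0 ≤ if _ then (1 : ℝ) else 0
    split_ifs <;> norm_num
  have hi2 : ∀ e x₀ x₁ x₂, 0 ≤ i2 e x₀ x₁ x₂ := fun e x₀ x₁ x₂ => by
    change 0 ≤ if _ then (1 : ℝ) else 0
    split_ifs <;> norm_num
  have hi3 : ∀ e x₀ x₁ x₂ x₃, 0 ≤ i3 e x₀ x₁ x₂ x₃ := fun e x₀ x₁ x₂ x₃ => by
    change 0 ≤ if _ then (1 : ℝ) else 0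
    split_ifs <;> norm_num
  have hs1 : ∀ e ∈ D, ∀ x₀, ∑ x₁ ∈ S, i1 e x₀ x₁ ≤ n e := by
    intro e he x₀
    change ∑ x₁ ∈ S, (if x₁ - x₀ ∈ (e : FI K) * M then (1 : ℝ) else 0) ≤ n e
    rw [← Finset.sum_filter, Finset.sum_const, nsmul_eq_mul, mul_one]
    refine hcount e he _ (fun x hx => (Finset.mem_filter.mp hx).1) ?_
    intro x hx x' hx'
    exact hsub e x x' x₀ (Finset.mem_filter.mp hx).2 (Finset.mem_filter.mp hx').2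
  have hs2 : ∀ e ∈ D ×ˢ D, ∀ x₀ x₁, ∑ x₂ ∈ S, i2 e x₀ x₁ x₂ ≤ n (e.1 ⊓ e.2) := by
    intro e he x₀ x₁
    have he' := Finset.mem_product.mp he
    change ∑ x₂ ∈ S, (if x₂ - x₀ ∈ (e.1 : FI K) * M ∧ x₂ - x₁ ∈ (e.2 : FI K) * M
      then (1 : ℝ) else 0) ≤ n (e.1 ⊓ e.2)
    rw [← Finset.sum_filter, Finset.sum_const, nsmul_eq_mul, mul_one]
    refine hcount _ (hinf _ he'.1 _ he'.2) _ (fun x hx => (Finset.mem_filter.mp hx).1) ?_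
    intro x hx x' hx'
    have h1 := (Finset.mem_filter.mp hx).2
    have h2 := (Finset.mem_filter.mp hx').2
    exact mem_inf hM (hsub _ x x' x₀ h1.1 h2.1) (hsub _ x x' x₁ h1.2 h2.2)
  have hs3 : ∀ e ∈ D ×ˢ (D ×ˢ D), ∀ x₀ x₁ x₂, ∑ x₃ ∈ S, i3 e x₀ x₁ x₂ x₃ ≤
      n (e.1 ⊓ e.2.1 ⊓ e.2.2) := by
    intro e he x₀ x₁ x₂
    have he' := Finset.mem_product.mp he
    have he'' := Finset.mem_product.mp he'.2
    change ∑ x₃ ∈ S, (if x₃ - x₀ ∈ (e.1 : FI K) * M ∧ x₃ - x₁ ∈ (e.2.1 : FI K) * M ∧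
      x₃ - x₂ ∈ (e.2.2 : FI K) * M then (1 : ℝ) else 0) ≤ n (e.1 ⊓ e.2.1 ⊓ e.2.2)
    rw [← Finset.sum_filter, Finset.sum_const, nsmul_eq_mul, mul_one]
    refine hcount _ (hinf _ (hinf _ he'.1 _ he''.1) _ he''.2) _
      (fun x hx => (Finset.mem_filter.mp hx).1) ?_
    intro x hx x' hx'
    have h1 := (Finset.mem_filter.mp hx).2
    have h2 := (Finset.mem_filter.mp hx').2
    exact mem_inf hM (mem_inf hM (hsub _ x x' x₀ h1.1 h2.1) (hsub _ x x' x₁ h1.2.1 h2.2.1))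
      (hsub _ x x' x₂ h1.2.2 h2.2.2)
  let TT := D ×ˢ ((D ×ˢ D) ×ˢ (D ×ˢ (D ×ˢ D)))
  -- the pointwise bound
  have hpt : ∀ b ∈ Fintype.piFinset (fun _ : Fin 4 => S), ‖c4M K X g b‖ ≤
      ∑ t ∈ TT, i1 t.1 (b 0) (b 1) * (i2 t.2.1 (b 0) (b 1) (b 2) *
        i3 t.2.2 (b 0) (b 1) (b 2) (b 3)) *
        W t.1 (t.2.1.1 ⊓ t.2.1.2) (t.2.2.1 ⊓ t.2.2.2.1 ⊓ t.2.2.2.2) := by
    intro b hbS
    have hbS' := Fintype.mem_piFinset.mp hbS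
    obtain ⟨e, he, hle⟩ := hb b (fun i => ((hSB _).mp (hbS' i)).1)
    let t : Ideal (𝓞 K) × (Ideal (𝓞 K) × Ideal (𝓞 K)) ×
      (Ideal (𝓞 K) × Ideal (𝓞 K) × Ideal (𝓞 K)) := (e 1 0, (e 2 0, e 2 1), (e 3 0, e 3 1, e 3 2))
    have ht : t ∈ TT := by
      refine Finset.mem_product.mpr ⟨(he 1 0).1, Finset.mem_product.mpr
        ⟨Finset.mem_product.mpr ⟨(he 2 0).1, (he 2 1).1⟩, Finset.mem_product.mpr
          ⟨(he 3 0).1, Finset.mem_product.mpr ⟨(he 3 1).1, (he 3 2).1⟩⟩⟩⟩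
    have h1 : i1 t.1 (b 0) (b 1) = 1 := if_pos (he 1 0).2
    have h2 : i2 t.2.1 (b 0) (b 1) (b 2) = 1 := if_pos ⟨(he 2 0).2, (he 2 1).2⟩
    have h3 : i3 t.2.2 (b 0) (b 1) (b 2) (b 3) = 1 :=
      if_pos ⟨(he 3 0).2, (he 3 1).2, (he 3 2).2⟩
    have h4 := Finset.single_le_sum (f := fun t : Ideal (𝓞 K) × (Ideal (𝓞 K) × Ideal (𝓞 K)) ×
      (Ideal (𝓞 K) × Ideal (𝓞 K) × Ideal (𝓞 K)) => i1 t.1 (b 0) (b 1) *
        (i2 t.2.1 (b 0) (b 1) (b 2) * i3 t.2.2 (b 0) (b 1) (b 2) (b 3)) *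
        W t.1 (t.2.1.1 ⊓ t.2.1.2) (t.2.2.1 ⊓ t.2.2.2.1 ⊓ t.2.2.2.2)) (s := TT)
      (fun t _ => mul_nonneg (mul_nonneg (hi1 _ _ _) (mul_nonneg (hi2 _ _ _ _)
        (hi3 _ _ _ _ _))) (hW0 _ _ _)) ht
    refine le_trans ?_ h4
    change _ ≤ i1 t.1 (b 0) (b 1) *
        (i2 t.2.1 (b 0) (b 1) (b 2) * i3 t.2.2 (b 0) (b 1) (b 2) (b 3)) *
        W t.1 (t.2.1.1 ⊓ t.2.1.2) (t.2.2.1 ⊓ t.2.2.2.1 ⊓ t.2.2.2.2)
    rw [h1, h2, h3, one_mul, one_mul, one_mul]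
    exact hle
  -- the number of the quadruples of a given type
  have hnum : ∀ t ∈ TT, ∑ b₀ ∈ S, ∑ b₁ ∈ S, ∑ b₂ ∈ S, ∑ b₃ ∈ S,
      i1 t.1 b₀ b₁ * (i2 t.2.1 b₀ b₁ b₂ * i3 t.2.2 b₀ b₁ b₂ b₃) ≤
      (S.card : ℝ) * (n t.1 * n (t.2.1.1 ⊓ t.2.1.2) * n (t.2.2.1 ⊓ t.2.2.2.1 ⊓ t.2.2.2.2)) := by
    intro t ht
    have ht' := Finset.mem_product.mp ht
    have ht'' := Finset.mem_product.mp ht'.2
    rw [← nsmul_eq_mul]
    refine Finset.sum_le_card_nsmul _ _ _ fun b₀ _ => ?_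
    have step : ∀ b₁ ∈ S, ∑ b₂ ∈ S, ∑ b₃ ∈ S,
        i1 t.1 b₀ b₁ * (i2 t.2.1 b₀ b₁ b₂ * i3 t.2.2 b₀ b₁ b₂ b₃) ≤
        i1 t.1 b₀ b₁ * (n (t.2.1.1 ⊓ t.2.1.2) * n (t.2.2.1 ⊓ t.2.2.2.1 ⊓ t.2.2.2.2)) := by
      intro b₁ _
      have e1 : ∑ b₂ ∈ S, ∑ b₃ ∈ S,
          i1 t.1 b₀ b₁ * (i2 t.2.1 b₀ b₁ b₂ * i3 t.2.2 b₀ b₁ b₂ b₃) =
          i1 t.1 b₀ b₁ * ∑ b₂ ∈ S, i2 t.2.1 b₀ b₁ b₂ * ∑ b₃ ∈ S, i3 t.2.2 b₀ b₁ b₂ b₃ := by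
        rw [Finset.mul_sum]
        refine Finset.sum_congr rfl fun b₂ _ => ?_
        rw [Finset.mul_sum, Finset.mul_sum]
      rw [e1]
      refine mul_le_mul_of_nonneg_left ?_ (hi1 _ _ _)
      calc ∑ b₂ ∈ S, i2 t.2.1 b₀ b₁ b₂ * ∑ b₃ ∈ S, i3 t.2.2 b₀ b₁ b₂ b₃
          ≤ ∑ b₂ ∈ S, i2 t.2.1 b₀ b₁ b₂ * n (t.2.2.1 ⊓ t.2.2.2.1 ⊓ t.2.2.2.2) :=
            Finset.sum_le_sum fun b₂ _ => mul_le_mul_of_nonneg_left
              (hs3 _ ht''.2 b₀ b₁ b₂) (hi2 _ _ _ _)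
        _ = (∑ b₂ ∈ S, i2 t.2.1 b₀ b₁ b₂) * n (t.2.2.1 ⊓ t.2.2.2.1 ⊓ t.2.2.2.2) := by
            rw [Finset.sum_mul]
        _ ≤ n (t.2.1.1 ⊓ t.2.1.2) * n (t.2.2.1 ⊓ t.2.2.2.1 ⊓ t.2.2.2.2) :=
            mul_le_mul_of_nonneg_right (hs2 _ ht''.1 b₀ b₁) (hn0 _)
    calc ∑ b₁ ∈ S, ∑ b₂ ∈ S, ∑ b₃ ∈ S,
        i1 t.1 b₀ b₁ * (i2 t.2.1 b₀ b₁ b₂ * i3 t.2.2 b₀ b₁ b₂ b₃)
        ≤ ∑ b₁ ∈ S, i1 t.1 b₀ b₁ *
          (n (t.2.1.1 ⊓ t.2.1.2) * n (t.2.2.1 ⊓ t.2.2.2.1 ⊓ t.2.2.2.2)) :=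
          Finset.sum_le_sum step
      _ = (∑ b₁ ∈ S, i1 t.1 b₀ b₁) *
          (n (t.2.1.1 ⊓ t.2.1.2) * n (t.2.2.1 ⊓ t.2.2.2.1 ⊓ t.2.2.2.2)) := by
          rw [Finset.sum_mul]
      _ ≤ n t.1 * (n (t.2.1.1 ⊓ t.2.1.2) * n (t.2.2.1 ⊓ t.2.2.2.1 ⊓ t.2.2.2.2)) :=
          mul_le_mul_of_nonneg_right (hs1 _ ht'.1 b₀) (mul_nonneg (hn0 _) (hn0 _))
      _ = n t.1 * n (t.2.1.1 ⊓ t.2.1.2) * n (t.2.2.1 ⊓ t.2.2.2.1 ⊓ t.2.2.2.2) := by ring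
  let H : Ideal (𝓞 K) → Ideal (𝓞 K) → Ideal (𝓞 K) → ℝ := fun a b c =>
    W a b c * (n a * n b * n c)
  have hH0 : ∀ a b c, 0 ≤ H a b c := fun a b c =>
    mul_nonneg (hW0 _ _ _) (mul_nonneg (mul_nonneg (hn0 _) (hn0 _)) (hn0 _))
  have hmain : ∑ b ∈ Fintype.piFinset (fun _ : Fin 4 => S), ‖c4M K X g b‖ ≤
      (S.card : ℝ) * ((D.card : ℝ) ^ 5 * ∑ g₂ ∈ D, ∑ g₃ ∈ D, ∑ g₄ ∈ D, H g₂ g₃ g₄) := by
    calc ∑ b ∈ Fintype.piFinset (fun _ : Fin 4 => S), ‖c4M K X g b‖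
        ≤ ∑ b ∈ Fintype.piFinset (fun _ : Fin 4 => S), ∑ t ∈ TT,
          i1 t.1 (b 0) (b 1) * (i2 t.2.1 (b 0) (b 1) (b 2) *
          i3 t.2.2 (b 0) (b 1) (b 2) (b 3)) *
          W t.1 (t.2.1.1 ⊓ t.2.1.2) (t.2.2.1 ⊓ t.2.2.2.1 ⊓ t.2.2.2.2) :=
          Finset.sum_le_sum hpt
      _ = ∑ t ∈ TT, (∑ b ∈ Fintype.piFinset (fun _ : Fin 4 => S),
          i1 t.1 (b 0) (b 1) * (i2 t.2.1 (b 0) (b 1) (b 2) *
          i3 t.2.2 (b 0) (b 1) (b 2) (b 3))) *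
          W t.1 (t.2.1.1 ⊓ t.2.1.2) (t.2.2.1 ⊓ t.2.2.2.1 ⊓ t.2.2.2.2) := by
          rw [Finset.sum_comm]
          exact Finset.sum_congr rfl fun t _ => (Finset.sum_mul _ _ _).symm
      _ ≤ ∑ t ∈ TT, (S.card : ℝ) * H t.1 (t.2.1.1 ⊓ t.2.1.2)
          (t.2.2.1 ⊓ t.2.2.2.1 ⊓ t.2.2.2.2) := by
          refine Finset.sum_le_sum fun t ht => ?_
          rw [sum_pi S (fun x₀ x₁ x₂ x₃ => i1 t.1 x₀ x₁ * (i2 t.2.1 x₀ x₁ x₂ *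
            i3 t.2.2 x₀ x₁ x₂ x₃))]
          refine (mul_le_mul_of_nonneg_right (hnum t ht) (hW0 _ _ _)).trans_eq ?_
          change _ = (S.card : ℝ) * (W _ _ _ * (n _ * n _ * n _))
          ring
      _ = (S.card : ℝ) * ∑ t ∈ TT, H t.1 (t.2.1.1 ⊓ t.2.1.2)
          (t.2.2.1 ⊓ t.2.2.2.1 ⊓ t.2.2.2.2) := by rw [Finset.mul_sum]
      _ ≤ (S.card : ℝ) * ((D.card : ℝ) ^ 5 * ∑ g₂ ∈ D, ∑ g₃ ∈ D, ∑ g₄ ∈ D, H g₂ g₃ g₄) := by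
          refine mul_le_mul_of_nonneg_left ?_ (Nat.cast_nonneg _)
          change ∑ t ∈ D ×ˢ ((D ×ˢ D) ×ˢ (D ×ˢ (D ×ˢ D))), _ ≤ _
          rw [Finset.sum_product, Finset.mul_sum]
          refine Finset.sum_le_sum fun g₂ hg₂ => ?_
          rw [Finset.sum_product]
          change ∑ p ∈ D ×ˢ D, ∑ q ∈ D ×ˢ (D ×ˢ D),
            H g₂ (p.1 ⊓ p.2) (q.1 ⊓ q.2.1 ⊓ q.2.2) ≤ _
          have hq : ∀ p ∈ D ×ˢ D, ∑ q ∈ D ×ˢ (D ×ˢ D),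
              H g₂ (p.1 ⊓ p.2) (q.1 ⊓ q.2.1 ⊓ q.2.2) ≤
              ((D ×ˢ (D ×ˢ D)).card : ℝ) * ∑ g₄ ∈ D, H g₂ (p.1 ⊓ p.2) g₄ := by
            intro p _
            refine sum_le_card_mul (D ×ˢ (D ×ˢ D)) D (fun q => q.1 ⊓ q.2.1 ⊓ q.2.2)
              (fun g₄ => H g₂ (p.1 ⊓ p.2) g₄) (fun g₄ _ => hH0 _ _ _) ?_
            intro q hq
            have hq' := Finset.mem_product.mp hq
            have hq'' := Finset.mem_product.mp hq'.2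
            exact hinf _ (hinf _ hq'.1 _ hq''.1) _ hq''.2
          have hp := sum_le_card_mul (D ×ˢ D) D (fun p => p.1 ⊓ p.2)
            (fun g₃ => ∑ g₄ ∈ D, H g₂ g₃ g₄)
            (fun g₃ _ => Finset.sum_nonneg fun g₄ _ => hH0 _ _ _)
            (fun p hp => hinf _ (Finset.mem_product.mp hp).1 _ (Finset.mem_product.mp hp).2)
          calc ∑ p ∈ D ×ˢ D, ∑ q ∈ D ×ˢ (D ×ˢ D), H g₂ (p.1 ⊓ p.2) (q.1 ⊓ q.2.1 ⊓ q.2.2)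
              ≤ ∑ p ∈ D ×ˢ D, ((D ×ˢ (D ×ˢ D)).card : ℝ) *
                ∑ g₄ ∈ D, H g₂ (p.1 ⊓ p.2) g₄ := Finset.sum_le_sum hq
            _ = ((D ×ˢ (D ×ˢ D)).card : ℝ) * ∑ p ∈ D ×ˢ D,
                ∑ g₄ ∈ D, H g₂ (p.1 ⊓ p.2) g₄ := by rw [Finset.mul_sum]
            _ ≤ ((D ×ˢ (D ×ˢ D)).card : ℝ) * (((D ×ˢ D).card : ℝ) *
                ∑ g₃ ∈ D, ∑ g₄ ∈ D, H g₂ g₃ g₄) :=
                mul_le_mul_of_nonneg_left hp (Nat.cast_nonneg _)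
            _ = (D.card : ℝ) ^ 5 * ∑ g₃ ∈ D, ∑ g₄ ∈ D, H g₂ g₃ g₄ := by
                rw [Finset.card_product, Finset.card_product]
                push_cast
                ring
  -- the conclusion
  have hcard : ((Bx K M y).ncard : ℝ) = (S.card : ℝ) := by
    have : (Bx K M y).ncard = S.card := Set.ncard_eq_toFinset_card _ hfin
    rw [this]
  have hS1 : (0 : ℝ) < S.card := by
    have h0 : (0 : K) ∈ S := by
      rw [hSB]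
      refine ⟨(M : Submodule (𝓞 K) K).zero_mem, fun v => ?_⟩
      rw [map_zero, zero_mul]
      exact zero_le_one
    exact_mod_cast Finset.card_pos.mpr ⟨0, h0⟩
  have hset : {b : Fin 4 → K | ∀ i, b i ∈ Bx K M y} =
      ((Fintype.piFinset (fun _ : Fin 4 => S) : Finset (Fin 4 → K)) : Set (Fin 4 → K)) := by
    ext b
    rw [Set.mem_ofPred_eq, Finset.mem_coe, Fintype.mem_piFinset]
    exact forall_congr' fun i => (hSB _).symm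
  unfold q4
  rw [hset, finsum_mem_coe_finset, hcard, div_le_iff₀ (by positivity)]
  refine hmain.trans_eq ?_
  have hcb : cb K M y = (S.card : ℝ) := hcard
  rw [hcb]
  have e2 : ∑ g₂ ∈ D, ∑ g₃ ∈ D, ∑ g₄ ∈ D, wt A (Nf K f) (Nf K g₂) (Nf K g₃) (Nf K g₄) *
      (cb K ((g₂ : FI K) * M) y' * cb K ((g₃ : FI K) * M) y' * cb K ((g₄ : FI K) * M) y') /
        (S.card : ℝ) ^ 3 = (∑ g₂ ∈ D, ∑ g₃ ∈ D, ∑ g₄ ∈ D, H g₂ g₃ g₄) / (S.card : ℝ) ^ 3 := by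
    rw [Finset.sum_div]
    refine Finset.sum_congr rfl fun g₂ _ => ?_
    rw [Finset.sum_div]
    refine Finset.sum_congr rfl fun g₃ _ => ?_
    rw [Finset.sum_div]
  rw [e2]
  field_simp

end Pool.Agent.H28.BG
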